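import Pool.Agent.U99.ZD.Sharp

/-!
# One moment inequality bounds the zeta function, uniformly in the order
-/

set_option autoImplicit false

namespace Pool.Agent.U99.ZD

open Complex MeasureTheory Set Filter
open Pool.Agent.Results.MP_3d0d30_nt.ReductionsAndLargeValues
open Pool.Agent.H983R4.LH (Ex)

/-- the inequality of Q2 for one pair `(k, T)` bounds the zeta function up to `T - 1` -/
lemma uniform (ε : ℝ) (hε : 0 < ε) : ∃ T₀ : ℝ, ∀ T : ℝ, T₀ ≤ T → ∀ k : ℝ, 0 < k → Good k T →
    ∀ t : ℝ, T₀ ≤ t → t ≤ T - 1 →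
    Z t ≤ Real.exp ((1 + ε) * (Real.log T / (2 * k) + k / 2 * Real.log (Real.log T))) := by
  obtain ⟨B, hB0, T₁, hT₁, h1⟩ := persist (ε / 4) (by positivity)
  have hll := Real.tendsto_log_atTop.comp Real.tendsto_log_atTop
  obtain ⟨T₄, h4⟩ := eventually_atTop.1 (hll.eventually_ge_atTop (8 * B / ε))
  have hlo : ∀ᶠ y : ℝ in atTop, 1 + 2 * Real.log y ≤ ε / 8 * y := by
    have h5 := Real.isLittleO_log_id_atTop.def (show (0:ℝ) < ε / 32 by positivity)
    filter_upwards [h5, eventually_ge_atTop (1:ℝ), eventually_ge_atTop (16 / ε)] with y h5 hy hy2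
    simp only [id_eq, Real.norm_eq_abs] at h5
    rw [abs_of_nonneg (Real.log_nonneg hy), abs_of_nonneg (by linarith : (0:ℝ) ≤ y)] at h5
    rw [div_le_iff₀ (by positivity)] at hy2
    linarith
  obtain ⟨T₅, h5⟩ := eventually_atTop.1 (Real.tendsto_log_atTop.eventually hlo)
  refine ⟨max (max T₁ T₄) T₅, fun T hT k hk hgood t ht htT => ?_⟩
  have p1 : T₁ ≤ t := (le_max_left _ _).trans ((le_max_left _ _).trans ht)
  have p4 : T₄ ≤ t := (le_max_right _ _).trans ((le_max_left _ _).trans ht)
  have p6 : 1000 ≤ t := hT₁.trans p1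
  have p7 : 1000 ≤ T := by linarith
  have h6 := h5 T ((le_max_right _ _).trans hT)
  by_contra hcon
  push Not at hcon
  have hZ0 : 0 < Z t := (Real.exp_pos _).trans hcon
  set Φ : ℝ := Real.log T / (2 * k) + k / 2 * Real.log (Real.log T) with hΦ
  have hlogz : (1 + ε) * Φ < Real.log (Z t) := (Real.lt_log_iff_exp_lt hZ0).2 hcon
  have hl := log_ge p6
  have hl0 : 0 < Real.log t := by linarith
  have hS1 := S_ge1 p6
  have hSl := S_ge p6
  have hS0 : 0 < S t := by linarith
  have hl' := log_ge p7
  have hl0' : 0 < Real.log T := by linarith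
  have hll' := loglog_ge p7
  have hll0' : 0 < Real.log (Real.log T) := by linarith
  have hLL : Real.log t ≤ Real.log T := Real.log_le_log (by linarith) (by linarith)
  have hlog1 : Real.log (Real.log t) ≤ Real.log (Real.log T) := Real.log_le_log hl0 hLL
  have hΦ0 : 0 < Φ := by positivity
  have hkΦ : 2 * k * Φ = Real.log T + k ^ 2 * Real.log (Real.log T) := by
    rw [hΦ]
    field_simp
  -- the arithmetic-geometric mean inequality
  have hSΦ : S t ≤ Φ := by
    refine (S_mono p6 (by linarith : t ≤ T)).trans ?_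
    refine Real.sqrt_le_iff.2 ⟨hΦ0.le, ?_⟩
    have e : Φ ^ 2 = (Real.log T / (2 * k) - k / 2 * Real.log (Real.log T)) ^ 2 +
        Real.log T * Real.log (Real.log T) := by
      rw [hΦ]
      field_simp
      ring
    rw [e]
    linarith [sq_nonneg (Real.log T / (2 * k) - k / 2 * Real.log (Real.log T))]
  -- the set of large values
  set κ : ℝ := (1 + ε / 2) * Φ / Real.log t with hκ
  have hκ0 : 0 < κ := by positivity
  have hκl : κ * Real.log t = (1 + ε / 2) * Φ := by
    rw [hκ]
    field_simp
  have hE := h1 t p1 κ hκ0 (by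
    rw [hκl]
    nlinarith)
  set X : ℝ := B * (Real.log t / S t) with hX
  have hm0 : 0 < Real.exp (-(2 * X)) / (2 * Real.log t ^ 2) := by positivity
  have hW := window (p := 2 * k) (by positivity) (by linarith) hE
  have hW2 : ∫ u in (t - 1)..(t + 1), Z u ^ (2 * k) ≤ M k T := by
    unfold M
    refine intervalIntegral.integral_mono_interval (by linarith) (by linarith) (by linarith) ?_ ?_
    · exact Eventually.of_forall fun u => Real.rpow_nonneg (Z_nonneg u) _
    · exact (Z_cont.rpow_const fun u => Or.inr (by positivity)).intervalIntegrable _ _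
  have hW3 := (hW.trans hW2).trans hgood
  have ht0 : 0 < t := by linarith
  have hT0 : 0 < T := by linarith
  have hlogs := Real.log_le_log (by positivity) hW3
  rw [Real.log_mul hm0.ne' (Real.rpow_pos_of_pos ht0 _).ne',
    Real.log_div (Real.exp_pos _).ne' (by positivity), Real.log_exp, Real.log_rpow ht0,
    Real.log_mul (by norm_num) (by positivity), Real.log_pow,
    Real.log_mul hT0.ne' (Real.rpow_pos_of_pos hl0' _).ne', Real.log_rpow hl0'] at hlogs
  push_cast at hlogs
  have hl2 : Real.log 2 ≤ 1 := by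
    have := Real.log_two_lt_d9
    linarith
  have hκk : κ * (2 * k) * Real.log t = 2 * k * Φ + ε / 2 * (2 * k * Φ) := by
    calc κ * (2 * k) * Real.log t = 2 * k * (κ * Real.log t) := by ring
      _ = _ := by
        rw [hκl]
        ring
  rw [hκk] at hlogs
  have i0 : Real.log T ≤ 2 * k * Φ := by
    rw [hkΦ]
    have : 0 ≤ k ^ 2 * Real.log (Real.log T) := by positivity
    linarith
  have i1 : ε / 2 * Real.log T ≤ ε / 2 * (2 * k * Φ) :=
    mul_le_mul_of_nonneg_left i0 (by positivity)
  have i9 : 2 * X ≤ ε / 4 * Real.log T := by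
    have j := h4 t p4
    simp only [Function.comp] at j
    have j1 : 8 * B / ε ≤ S t := j.trans hSl
    rw [div_le_iff₀ (by positivity)] at j1
    have j2 : X * S t = B * Real.log t := by
      rw [hX]
      field_simp
    have j3 : 2 * X * S t ≤ ε / 4 * Real.log T * S t := by
      calc 2 * X * S t = 2 * (B * Real.log t) := by rw [← j2]; ring
        _ = 1 / 4 * (8 * B) * Real.log t := by ring
        _ ≤ 1 / 4 * (S t * ε) * Real.log t := by gcongr
        _ ≤ 1 / 4 * (S t * ε) * Real.log T := by gcongr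
        _ = _ := by ring
    exact le_of_mul_le_mul_right j3 hS0
  have i10 : 0 < ε / 8 * Real.log T := by positivity
  linarith

/-- the critical scale: one order above `S(T) / log log T` gives all larger orders -/
lemma self_reflect {a : ℝ} (ha : 1 < a) (h : ∃ T₀ : ℝ, ∀ T : ℝ, T₀ ≤ T →
    Good (a * S T / Real.log (Real.log T)) T) :
    ∃ T₀ : ℝ, ∀ T : ℝ, T₀ ≤ T → ∀ k : ℝ, a * S T / Real.log (Real.log T) ≤ k → Good k T := by
  have ha0 : 0 < a := by linarith
  set b : ℝ := 1 / (2 * a) + a / 2 with hb
  have hba : b < a := by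
    have h1 : 1 / (2 * a) < a / 2 := by
      rw [div_lt_div_iff₀ (by positivity) (by norm_num)]
      nlinarith
    linarith
  have hg := critical_sharp ha0 h (a - b) (by linarith)
  rw [add_sub_cancel] at hg
  obtain ⟨T₁, h1⟩ := h
  obtain ⟨T₂, h2, h3⟩ := growth_Icc (V := S) ha0 ⟨1000, fun s t hs hst => S_mono hs hst⟩
    (fun A => by
      have h3 := Real.tendsto_log_atTop.comp Real.tendsto_log_atTop
      obtain ⟨T₃, h3⟩ := eventually_atTop.1 (h3.eventually_ge_atTop A)
      refine ⟨max T₃ 1000, fun T hT => ?_⟩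
      have h4 := h3 T ((le_max_left _ _).trans hT)
      exact h4.trans (S_ge ((le_max_right _ _).trans hT))) hg
  refine ⟨max T₁ T₂, fun T hT k hk => ?_⟩
  have q1 : T₁ ≤ T := (le_max_left _ _).trans hT
  have q2 : T₂ ≤ T := (le_max_right _ _).trans hT
  have q3 : 1000 ≤ T := h2.trans q2
  have hl := log_ge q3
  have hl0 : 0 < Real.log T := by linarith
  have hll := loglog_ge q3
  have hll0 : 0 < Real.log (Real.log T) := by linarith
  have hS1 := S_ge1 q3
  have hS0 : 0 < S T := by linarith
  refine reflect (κ := a * S T / Real.log (Real.log T)) (j := a * S T / Real.log (Real.log T)) q3 ?_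
    (by positivity) (h1 T q1) hk ?_
  · intro t ht
    refine (h3 T q2 t ht).trans (le_of_eq ?_)
    rw [Real.rpow_def_of_pos hl0]
    congr 1
    field_simp
  · linarith

end Pool.Agent.U99.ZD
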