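import Pool.Agent.Results.MP_3d0d30_nt.ReductionsAndLargeValues
import Pool.Agent.N879.GD.Cru

/-!
# Growth of zeta and ranges of orders on every scale: lemmas
-/

set_option autoImplicit false

namespace Pool.Agent.U99.ZD

open Complex MeasureTheory Set Filter
open Pool.Agent.Results.MP_3d0d30_nt.ReductionsAndLargeValues

/-- the critical scale `√(log T log log T)` -/
noncomputable def S (T : ℝ) : ℝ := Real.sqrt (Real.log T * Real.log (Real.log T))

/-- The scales: eventually nondecreasing functions `V`, of larger order than `√(log T log log T)`,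
with `V (T + 1) / V T → 1`. -/
structure Scale (V : ℝ → ℝ) : Prop where
  mono : ∃ T₀ : ℝ, ∀ s t : ℝ, T₀ ≤ s → s ≤ t → V s ≤ V t
  big : ∀ A : ℝ, ∃ T₀ : ℝ, ∀ T : ℝ, T₀ ≤ T → A * S T ≤ V T
  shift : ∀ ε : ℝ, 0 < ε → ∃ T₀ : ℝ, ∀ T : ℝ, T₀ ≤ T → V (T + 1) ≤ (1 + ε) * V T

/-- the growth bound `|ζ(1/2 + it)| ≤ exp ((c + ε) V(t))` for all `ε > 0` and large `t` -/
def Growth (V : ℝ → ℝ) (c : ℝ) : Prop :=
  ∀ ε : ℝ, 0 < ε → ∃ t₀ : ℝ, ∀ t : ℝ, t₀ ≤ t → Z t ≤ Real.exp ((c + ε) * V t)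

/-- the inequality of Q2 for all orders `k ≥ (a + ε) V(T) / log log T` and large `T` -/
def Range (V : ℝ → ℝ) (a : ℝ) : Prop :=
  ∀ ε : ℝ, 0 < ε → ∃ T₀ : ℝ, ∀ T : ℝ, T₀ ≤ T → ∀ k : ℝ, 2 ≤ k →
    (a + ε) * V T / Real.log (Real.log T) ≤ k → Good k T

/-- the inequality of Q2 for the single order `k = (a + ε) V(T) / log log T` and large `T` -/
def Single (V : ℝ → ℝ) (a : ℝ) : Prop :=
  ∀ ε : ℝ, 0 < ε → ∃ T₀ : ℝ, ∀ T : ℝ, T₀ ≤ T →
    Good ((a + ε) * V T / Real.log (Real.log T)) T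

lemma S_sq {T : ℝ} (hT : 1000 ≤ T) : S T ^ 2 = Real.log T * Real.log (Real.log T) := by
  have hl := log_ge hT
  have hll := loglog_ge hT
  exact Real.sq_sqrt (by positivity)

lemma S_ge {T : ℝ} (hT : 1000 ≤ T) : Real.log (Real.log T) ≤ S T := by
  have hl := log_ge hT
  have hll := loglog_ge hT
  have hle : Real.log (Real.log T) ≤ Real.log T := by
    have := Real.log_le_sub_one_of_pos (by linarith : (0:ℝ) < Real.log T)
    linarith
  apply Real.le_sqrt_of_sq_le
  nlinarith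

lemma S_ge1 {T : ℝ} (hT : 1000 ≤ T) : 1 ≤ S T := by
  have := S_ge hT
  have := loglog_ge hT
  linarith

lemma S_mono {s t : ℝ} (hs : 1000 ≤ s) (hst : s ≤ t) : S s ≤ S t := by
  have hl := log_ge hs
  have hll := loglog_ge hs
  have h1 : Real.log s ≤ Real.log t := Real.log_le_log (by linarith) hst
  have h2 : Real.log (Real.log s) ≤ Real.log (Real.log t) := Real.log_le_log (by linarith) h1
  apply Real.sqrt_le_sqrt
  exact mul_le_mul h1 h2 (by linarith) (by linarith)

/-- `S` varies slowly -/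
lemma S_shift (δ : ℝ) (hδ : 0 < δ) : ∃ T₀ : ℝ, ∀ T : ℝ, T₀ ≤ T → S (T + 1) ≤ (1 + δ) * S T := by
  have h1 := Real.tendsto_log_atTop.eventually_ge_atTop (Real.log 2 / δ)
  obtain ⟨T₁, hT₁⟩ := eventually_atTop.1 h1
  refine ⟨max T₁ 1000, fun T hT => ?_⟩
  have hT1 := hT₁ T ((le_max_left _ _).trans hT)
  have hT2 : 1000 ≤ T := (le_max_right _ _).trans hT
  have hl := log_ge hT2
  have hll := loglog_ge hT2
  have e1 : Real.log (T + 1) ≤ (1 + δ) * Real.log T := by
    have h3 : Real.log (T + 1) ≤ Real.log T + Real.log 2 := by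
      rw [← Real.log_mul (by linarith) (by norm_num)]
      exact Real.log_le_log (by linarith) (by linarith)
    rw [div_le_iff₀ hδ] at hT1
    linarith
  have e0 : Real.log T ≤ Real.log (T + 1) := Real.log_le_log (by linarith) (by linarith)
  have e2 : Real.log (Real.log (T + 1)) ≤ (1 + δ) * Real.log (Real.log T) := by
    have h3 : Real.log (Real.log (T + 1)) ≤ Real.log ((1 + δ) * Real.log T) :=
      Real.log_le_log (by linarith) e1
    rw [Real.log_mul (by linarith) (by linarith)] at h3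
    have h4 : Real.log (1 + δ) ≤ δ := by
      have := Real.log_le_sub_one_of_pos (by linarith : (0:ℝ) < 1 + δ)
      linarith
    nlinarith
  have e3 : 0 ≤ Real.log (Real.log (T + 1)) := by
    have : 1000 ≤ T + 1 := by linarith
    linarith [loglog_ge this]
  apply Real.sqrt_le_iff.2
  constructor
  · have := S_ge1 hT2
    positivity
  · rw [mul_pow, S_sq hT2]
    calc Real.log (T + 1) * Real.log (Real.log (T + 1))
        ≤ ((1 + δ) * Real.log T) * ((1 + δ) * Real.log (Real.log T)) := by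
          apply mul_le_mul e1 e2 e3
          positivity
      _ = _ := by ring

/-! ### from growth to moments -/

/-- a growth bound on `[0, T]` -/
lemma growth_Icc {V : ℝ → ℝ} {ν : ℝ} (hν : 0 < ν)
    (hm : ∃ T₀ : ℝ, ∀ s t : ℝ, T₀ ≤ s → s ≤ t → V s ≤ V t)
    (hV : ∀ A : ℝ, ∃ T₀ : ℝ, ∀ T : ℝ, T₀ ≤ T → A ≤ V T)
    (h : ∃ t₀ : ℝ, ∀ t : ℝ, t₀ ≤ t → Z t ≤ Real.exp (ν * V t)) :
    ∃ T₀ : ℝ, 1000 ≤ T₀ ∧ ∀ T : ℝ, T₀ ≤ T → ∀ t ∈ Icc (0:ℝ) T, Z t ≤ Real.exp (ν * V T) := by
  obtain ⟨t₀, hw⟩ := h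
  obtain ⟨t₁, hm⟩ := hm
  obtain ⟨C, hC⟩ := (isCompact_Icc (a := (0:ℝ)) (b := max t₀ t₁)).exists_bound_of_continuousOn
    Z_cont.continuousOn
  obtain ⟨T₁, hT₁⟩ := hV (C / ν)
  refine ⟨max T₁ 1000, le_max_right _ _, fun T hT t ht => ?_⟩
  have hT1 : T₁ ≤ T := (le_max_left _ _).trans hT
  rcases le_total t (max t₀ t₁) with h | h
  · have h1 := hC t ⟨ht.1, h⟩
    rw [Real.norm_of_nonneg (Z_nonneg t)] at h1
    have h2 := hT₁ T hT1
    rw [div_le_iff₀ hν] at h2
    have h3 := Real.add_one_le_exp (ν * V T)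
    linarith
  · refine (hw t ((le_max_left _ _).trans h)).trans (Real.exp_le_exp.2 ?_)
    exact mul_le_mul_of_nonneg_left (hm t T ((le_max_right _ _).trans h) ht.2) hν.le

/-- from growth to ranges, one exponent -/
lemma range_one {V : ℝ → ℝ} {ν : ℝ} (hν : 0 < ν)
    (hm : ∃ T₀ : ℝ, ∀ s t : ℝ, T₀ ≤ s → s ≤ t → V s ≤ V t)
    (hV : ∀ A : ℝ, ∃ T₀ : ℝ, ∀ T : ℝ, T₀ ≤ T → A ≤ V T)
    (h : ∃ t₀ : ℝ, ∀ t : ℝ, t₀ ≤ t → Z t ≤ Real.exp (ν * V t)) :
    ∃ T₀ : ℝ, ∀ T : ℝ, T₀ ≤ T → ∀ k : ℝ, 2 ≤ k →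
      2 * ν * V T / Real.log (Real.log T) ≤ k + 2 → Good k T := by
  obtain ⟨T₀, h0, h⟩ := growth_Icc hν hm hV h
  refine ⟨T₀, fun T hT k hk hkT => ?_⟩
  have hT2 : 1000 ≤ T := h0.trans hT
  have hl := log_ge hT2
  have hl0 : 0 < Real.log T := by linarith
  have hll := loglog_ge hT2
  have hll0 : 0 < Real.log (Real.log T) := by linarith
  refine reflect (κ := ν * V T / Real.log (Real.log T)) (j := 2) hT2 ?_
    (by norm_num) (good_two T hT2) hk ?_
  · intro t ht
    refine (h T hT t ht).trans (le_of_eq ?_)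
    rw [Real.rpow_def_of_pos hl0]
    congr 1
    field_simp
  · have e : 2 * (ν * V T / Real.log (Real.log T)) = 2 * ν * V T / Real.log (Real.log T) := by
      ring
    rw [e]
    linarith

/-- from growth to ranges -/
lemma range_of {V : ℝ → ℝ}
    (hm : ∃ T₀ : ℝ, ∀ s t : ℝ, T₀ ≤ s → s ≤ t → V s ≤ V t)
    (hV : ∀ A : ℝ, ∃ T₀ : ℝ, ∀ T : ℝ, T₀ ≤ T → A ≤ V T) {c : ℝ} (hc : 0 ≤ c)
    (h : Growth V c) : Range V (2 * c) := by
  intro ε hε
  obtain ⟨T₀, h1⟩ := range_one (ν := c + ε / 2) (by positivity) hm hV (h _ (by positivity))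
  refine ⟨T₀, fun T hT k hk hkT => h1 T hT k hk ?_⟩
  have e : 2 * (c + ε / 2) = 2 * c + ε := by ring
  rw [e]
  linarith

/-! ### from moments to growth -/

/-- the zeta function varies slowly -/
lemma Z_slow {T t u : ℝ} (ht : t ∈ Icc (0:ℝ) T) (hu : u ∈ Icc (0:ℝ) T) :
    Z t - Z u ≤ 448 * (1 + T) ^ 2 * |u - t| := by
  have h1 := Convex.norm_image_sub_le_of_norm_deriv_le (𝕜 := ℝ)
    (f := fun x : ℝ => riemannZeta (1 / 2 + I * x))
    (C := 448 * (1 + T) ^ 2) (s := Icc 0 T) (x := t) (y := u)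
    (fun x _ => (Pool.Agent.N879.GD.Cru.hasDeriv x).differentiableAt) (fun x hx => by
      rw [(Pool.Agent.N879.GD.Cru.hasDeriv x).deriv, norm_mul, norm_I, mul_one]
      refine (Pool.Agent.N879.GD.Cru.deriv_zeta hx.1).trans ?_
      have := hx.1
      have := hx.2
      gcongr) (convex_Icc _ _) ht hu
  rw [Real.norm_eq_abs] at h1
  have e : ∀ x : ℝ, Z x = ‖riemannZeta (1 / 2 + I * x)‖ := by
    intro x
    unfold Z
    rw [mul_comm]
  rw [e, e]
  refine le_trans ?_ h1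
  rw [norm_sub_rev]
  exact norm_sub_norm_le _ _

/-- one moment bounds the zeta function -/
lemma point {k T t : ℝ} (hT : 1000 ≤ T) (hk : 0 < k) (hg : Good k T) (ht : t ∈ Icc (0:ℝ) (T - 1)) :
    Z t ≤ 2 * Real.exp (2 * Real.log T / k + k / 2 * Real.log (Real.log T)) := by
  have hl := log_ge hT
  have hl0 : 0 < Real.log T := by linarith
  have hll := loglog_ge hT
  have hT0 : 0 < T := by linarith
  rcases le_or_gt (Z t) 1 with h | h
  · have : (1:ℝ) ≤ Real.exp (2 * Real.log T / k + k / 2 * Real.log (Real.log T)) :=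
      Real.one_le_exp (by positivity)
    linarith
  set D : ℝ := 448 * (1 + T) ^ 2 with hD
  have hD1 : 1 ≤ D := by rw [hD]; nlinarith
  have hD0 : 0 < D := by linarith
  set δ : ℝ := 1 / (2 * D) with hδ
  have hδ0 : 0 < δ := by positivity
  have hδ1 : δ ≤ 1 := by
    rw [hδ, div_le_one (by positivity)]
    linarith
  have htT : t ≤ T := by linarith [ht.2]
  have hlow : ∀ u ∈ Icc t (t + δ), Z t / 2 ≤ Z u := by
    intro u hu
    have h1 := Z_slow (T := T) (t := t) (u := u) ⟨ht.1, htT⟩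
      ⟨ht.1.trans hu.1, by linarith [hu.2, ht.2]⟩
    rw [← hD, abs_of_nonneg (by linarith [hu.1])] at h1
    have h2 : D * (u - t) ≤ D * δ := by
      apply mul_le_mul_of_nonneg_left _ hD0.le
      linarith [hu.2]
    have h3 : D * δ = 1 / 2 := by
      rw [hδ]
      field_simp
    linarith
  have hc : Continuous fun u : ℝ => Z u ^ (2 * k) :=
    Z_cont.rpow_const fun u => Or.inr (by positivity)
  have h1 : δ * (Z t / 2) ^ (2 * k) ≤ M k T := by
    have h2 : ∫ u in t..(t + δ), (Z t / 2) ^ (2 * k) ≤ ∫ u in t..(t + δ), Z u ^ (2 * k) := by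
      refine intervalIntegral.integral_mono_on (by linarith) (by simp) (hc.intervalIntegrable _ _)
        fun u hu => ?_
      have := hlow u hu
      exact Real.rpow_le_rpow (by linarith) this (by positivity)
    rw [intervalIntegral.integral_const, smul_eq_mul, add_sub_cancel_left] at h2
    refine h2.trans ?_
    unfold M
    refine intervalIntegral.integral_mono_interval ht.1 (by linarith) (by linarith [ht.2]) ?_
      (hc.intervalIntegrable _ _)
    exact Eventually.of_forall fun u => Real.rpow_nonneg (Z_nonneg u) _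
  have h2 : (Z t / 2) ^ (2 * k) ≤ T ^ (4:ℝ) * Real.log T ^ (k ^ 2) := by
    have h3 := h1.trans hg
    rw [hδ, one_div, inv_mul_le_iff₀ (by positivity)] at h3
    refine h3.trans ?_
    rw [← mul_assoc]
    apply mul_le_mul_of_nonneg_right _ (Real.rpow_nonneg hl0.le _)
    have e : T ^ (4:ℝ) = T ^ 4 := by norm_cast
    rw [e, hD]
    have h4 : (1 + T) ^ 2 ≤ 1.01 * T ^ 2 := by nlinarith
    have h5 : 0 ≤ T ^ 3 := by positivity
    nlinarith [mul_le_mul_of_nonneg_right h4 hT0.le, mul_le_mul_of_nonneg_right hT h5]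
  have h3 : 2 * k * Real.log (Z t / 2) ≤ 4 * Real.log T + k ^ 2 * Real.log (Real.log T) := by
    have hz : 0 < Z t / 2 := by linarith
    have h4 := Real.log_le_log (Real.rpow_pos_of_pos hz _) h2
    rwa [Real.log_rpow hz, Real.log_mul (Real.rpow_pos_of_pos hT0 _).ne'
      (Real.rpow_pos_of_pos hl0 _).ne', Real.log_rpow hT0, Real.log_rpow hl0] at h4
  have h4 : Real.log (Z t / 2) ≤ 2 * Real.log T / k + k / 2 * Real.log (Real.log T) := by
    have h5 : Real.log (Z t / 2) ≤ (4 * Real.log T + k ^ 2 * Real.log (Real.log T)) / (2 * k) := by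
      rw [le_div_iff₀ (by positivity)]
      linarith
    refine h5.trans (le_of_eq ?_)
    field_simp
    ring
  have h5 := (Real.log_le_iff_le_exp (by linarith)).1 h4
  linarith

/-- the bound at `T = t + 1` for the order `a W / log log T` -/
lemma point_scale {a W t : ℝ} (ht : 1000 ≤ t) (ha : 0 < a) (hW : 0 < W)
    (hg : Good (a * W / Real.log (Real.log (t + 1))) (t + 1)) :
    Z t ≤ Real.exp (Real.log 2 + 2 * S (t + 1) ^ 2 / (a * W) + a / 2 * W) := by
  have hT : 1000 ≤ t + 1 := by linarith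
  have hll := loglog_ge hT
  have hll0 : 0 < Real.log (Real.log (t + 1)) := by linarith
  have h := point hT (by positivity) hg (t := t) ⟨by linarith, by linarith⟩
  refine h.trans (le_of_eq ?_)
  rw [S_sq hT, add_assoc, Real.exp_add (Real.log 2), Real.exp_log (by norm_num)]
  congr 2
  field_simp

lemma tends {V : ℝ → ℝ} (hb : ∀ A : ℝ, ∃ T₀ : ℝ, ∀ T : ℝ, T₀ ≤ T → A * S T ≤ V T) (A : ℝ) :
    ∃ T₀ : ℝ, ∀ T : ℝ, T₀ ≤ T → A ≤ V T := by
  obtain ⟨T₁, h⟩ := hb (max A 0)
  refine ⟨max T₁ 1000, fun T hT => ?_⟩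
  have h1 := h T ((le_max_left _ _).trans hT)
  have h2 := S_ge1 ((le_max_right _ _).trans hT)
  have h3 : 0 ≤ max A 0 := le_max_right _ _
  have h4 : A ≤ max A 0 := le_max_left _ _
  nlinarith

/-- from single orders to growth -/
lemma growth_of {V : ℝ → ℝ} (hV : Scale V) {c : ℝ} (hc : 0 ≤ c) (h : Single V (2 * c)) :
    Growth V c := by
  intro ε hε
  set a : ℝ := 2 * c + ε with ha
  have ha0 : 0 < a := by positivity
  obtain ⟨T₁, h1⟩ := h ε hε
  set δ : ℝ := ε / (4 * (c + ε)) with hδ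
  have hδ0 : 0 < δ := by positivity
  obtain ⟨T₂, h2⟩ := hV.shift δ hδ0
  obtain ⟨T₃, h3⟩ := tends hV.big (8 * Real.log 2 / ε + 1)
  set A : ℝ := Real.sqrt (16 * (1 + δ) / (a * ε)) with hA
  obtain ⟨T₄, h4⟩ := hV.big A
  obtain ⟨T₅, h5⟩ := hV.mono
  refine ⟨max (max (max T₁ T₂) (max T₃ T₄)) (max T₅ 1000), fun t ht => ?_⟩
  have q1 : T₁ ≤ t := (le_max_left _ _).trans ((le_max_left _ _).trans ((le_max_left _ _).trans ht))
  have q2 : T₂ ≤ t := (le_max_right _ _).trans ((le_max_left _ _).trans ((le_max_left _ _).trans ht))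
  have q3 : T₃ ≤ t := (le_max_left _ _).trans ((le_max_right _ _).trans ((le_max_left _ _).trans ht))
  have q4 : T₄ ≤ t := (le_max_right _ _).trans ((le_max_right _ _).trans ((le_max_left _ _).trans ht))
  have q5 : T₅ ≤ t := (le_max_left _ _).trans ((le_max_right _ _).trans ht)
  have q6 : 1000 ≤ t := (le_max_right _ _).trans ((le_max_right _ _).trans ht)
  have r3 := h3 t q3
  have hl2 : 0 ≤ Real.log 2 := Real.log_nonneg (by norm_num)
  have hVt : 0 < V t := by
    have : 0 ≤ 8 * Real.log 2 / ε := by positivity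
    linarith
  have hVT : V t ≤ V (t + 1) := h5 t (t + 1) q5 (by linarith)
  have hVT0 : 0 < V (t + 1) := by linarith
  refine (point_scale q6 ha0 hVT0 (h1 (t + 1) (by linarith))).trans (Real.exp_le_exp.2 ?_)
  have r2 := h2 t q2
  -- the three terms
  have s1 : Real.log 2 ≤ ε / 8 * V t := by
    have : 8 * Real.log 2 / ε ≤ V t := by linarith
    rw [div_le_iff₀ hε] at this
    linarith
  have s2 : 2 * S (t + 1) ^ 2 / (a * V (t + 1)) ≤ ε / 8 * V t := by
    have r4 := h4 (t + 1) (by linarith)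
    have hA0 : 0 ≤ A := Real.sqrt_nonneg _
    have hA2 : A ^ 2 = 16 * (1 + δ) / (a * ε) := Real.sq_sqrt (by positivity)
    have hS0 : 0 ≤ S (t + 1) := Real.sqrt_nonneg _
    have r6 : A ^ 2 * S (t + 1) ^ 2 ≤ V (t + 1) ^ 2 := by
      rw [← mul_pow]
      exact pow_le_pow_left₀ (by positivity) r4 2
    rw [hA2, div_mul_eq_mul_div, div_le_iff₀ (by positivity)] at r6
    rw [div_le_iff₀ (by positivity)]
    have r7 : V (t + 1) ^ 2 * (a * ε) ≤ (1 + δ) * (V t * V (t + 1) * (a * ε)) := by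
      calc V (t + 1) ^ 2 * (a * ε) = V (t + 1) * (V (t + 1) * (a * ε)) := by ring
        _ ≤ ((1 + δ) * V t) * (V (t + 1) * (a * ε)) := by
            apply mul_le_mul_of_nonneg_right r2
            positivity
        _ = _ := by ring
    have r8 : 16 * (1 + δ) * S (t + 1) ^ 2 ≤ (1 + δ) * (V t * V (t + 1) * (a * ε)) := r6.trans r7
    have r9 : (1 + δ) * (16 * S (t + 1) ^ 2) ≤ (1 + δ) * (V t * V (t + 1) * (a * ε)) := by
      linarith
    have r10 := le_of_mul_le_mul_left r9 (by positivity)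
    nlinarith
  have s3 : a / 2 * V (t + 1) ≤ (c + 3 * ε / 4) * V t := by
    calc a / 2 * V (t + 1) ≤ a / 2 * ((1 + δ) * V t) := by gcongr
      _ = (a / 2 * (1 + δ)) * V t := by ring
      _ ≤ _ := by
        apply mul_le_mul_of_nonneg_right _ hVt.le
        have e1 : a / 2 = c + ε / 2 := by rw [ha]; ring
        rw [e1]
        have e2 : (c + ε / 2) * δ ≤ ε / 4 := by
          rw [hδ, ← mul_div_assoc, div_le_iff₀ (by positivity)]
          nlinarith
        linarith
  linarith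

/-- from ranges to single orders -/
lemma single_of {V : ℝ → ℝ} (hV : Scale V) {c : ℝ} (hc : 0 ≤ c) (h : Range V (2 * c)) :
    Single V (2 * c) := by
  intro ε hε
  obtain ⟨T₀, h⟩ := h ε hε
  obtain ⟨T₁, h1⟩ := hV.big (2 / (2 * c + ε))
  refine ⟨max (max T₀ T₁) 1000, fun T hT => ?_⟩
  have h2 : T₀ ≤ T := (le_max_left _ _).trans ((le_max_left _ _).trans hT)
  have h3 : T₁ ≤ T := (le_max_right _ _).trans ((le_max_left _ _).trans hT)
  have h4 : 1000 ≤ T := (le_max_right _ _).trans hT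
  refine h T h2 _ ?_ le_rfl
  have hll := loglog_ge h4
  have h5 := h1 T h3
  have h6 := S_ge h4
  rw [le_div_iff₀ (by linarith)]
  rw [div_mul_eq_mul_div, div_le_iff₀ (by positivity)] at h5
  linarith

/-- the critical scale: from one order to growth -/
lemma critical {a : ℝ} (ha : 0 < a) (h : ∃ T₀ : ℝ, ∀ T : ℝ, T₀ ≤ T →
    Good (a * S T / Real.log (Real.log T)) T) : Growth S (2 / a + a / 2) := by
  intro ε hε
  obtain ⟨T₁, h1⟩ := h
  set b : ℝ := 2 / a + a / 2 with hb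
  have hb0 : 0 < b := by positivity
  set δ : ℝ := ε / (2 * b) with hδ
  have hδ0 : 0 < δ := by positivity
  obtain ⟨T₂, h2⟩ := S_shift δ hδ0
  have h3 := Real.tendsto_log_atTop.comp Real.tendsto_log_atTop
  obtain ⟨T₃, h3⟩ := eventually_atTop.1 (h3.eventually_ge_atTop (2 * Real.log 2 / ε))
  refine ⟨max (max T₁ T₂) (max T₃ 1000), fun t ht => ?_⟩
  have q1 : T₁ ≤ t := (le_max_left _ _).trans ((le_max_left _ _).trans ht)
  have q2 : T₂ ≤ t := (le_max_right _ _).trans ((le_max_left _ _).trans ht)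
  have q3 : T₃ ≤ t := (le_max_left _ _).trans ((le_max_right _ _).trans ht)
  have q4 : 1000 ≤ t := (le_max_right _ _).trans ((le_max_right _ _).trans ht)
  have hS1 := S_ge1 (show (1000:ℝ) ≤ t + 1 by linarith)
  have hS0 : 0 < S (t + 1) := by linarith
  refine (point_scale q4 ha hS0 (h1 (t + 1) (by linarith))).trans (Real.exp_le_exp.2 ?_)
  have s1 : Real.log 2 ≤ ε / 2 * S t := by
    have h5 := h3 t q3
    simp only [Function.comp] at h5
    rw [div_le_iff₀ hε] at h5
    have h6 := S_ge q4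
    nlinarith
  have s2 : 2 * S (t + 1) ^ 2 / (a * S (t + 1)) + a / 2 * S (t + 1) = b * S (t + 1) := by
    rw [hb]
    field_simp
  have s3 : b * S (t + 1) ≤ (b + ε / 2) * S t := by
    calc b * S (t + 1) ≤ b * ((1 + δ) * S t) := by
          apply mul_le_mul_of_nonneg_left (h2 t q2) hb0.le
      _ = (b + b * δ) * S t := by ring
      _ = _ := by
        congr 2
        rw [hδ]
        field_simp
  rw [add_assoc, s2]
  linarith

/-- the critical scale: from growth to ranges -/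
lemma critical_range {c : ℝ} (hc : 0 ≤ c) (h : Growth S c) : Range S (2 * c) := by
  refine range_of ⟨1000, fun s t hs hst => S_mono hs hst⟩ (fun A => ?_) hc h
  have h3 := Real.tendsto_log_atTop.comp Real.tendsto_log_atTop
  obtain ⟨T₃, h3⟩ := eventually_atTop.1 (h3.eventually_ge_atTop A)
  refine ⟨max T₃ 1000, fun T hT => ?_⟩
  have h4 := h3 T ((le_max_left _ _).trans hT)
  exact h4.trans (S_ge ((le_max_right _ _).trans hT))

end Pool.Agent.U99.ZD
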