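import Pool.Agent.U99.ZD.Dict

/-!
# Examples of scales
-/

set_option autoImplicit false

namespace Pool.Agent.U99.ZD

open Filter
open Pool.Agent.Results.MP_3d0d30_nt.ReductionsAndLargeValues

/-- scales that are functions of `log T` -/
lemma scale_of (g : ℝ → ℝ)
    (hm : ∃ y₀ : ℝ, ∀ x y : ℝ, y₀ ≤ x → x ≤ y → g x ≤ g y)
    (hb : ∀ A : ℝ, ∀ᶠ y : ℝ in atTop, A * (y * Real.log y) ≤ g y ^ 2)
    (hp : ∀ᶠ y : ℝ in atTop, 0 ≤ g y)
    (hs : ∀ ε : ℝ, 0 < ε → ∃ δ : ℝ, 0 < δ ∧ ∀ᶠ y : ℝ in atTop, ∀ z : ℝ, y ≤ z → z ≤ (1 + δ) * y →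
      g z ≤ (1 + ε) * g y) : Scale (fun T => g (Real.log T)) := by
  refine ⟨?_, ?_, ?_⟩
  · obtain ⟨y₀, h⟩ := hm
    obtain ⟨T₀, h0⟩ := eventually_atTop.1 (Real.tendsto_log_atTop.eventually_ge_atTop y₀)
    refine ⟨max T₀ 1, fun s t hs hst => h _ _ (h0 s ((le_max_left _ _).trans hs)) ?_⟩
    exact Real.log_le_log (by linarith [(le_max_right T₀ 1).trans hs]) hst
  · intro A
    obtain ⟨T₀, h0⟩ := eventually_atTop.1 (Real.tendsto_log_atTop.eventually ((hb (A ^ 2)).and hp))
    refine ⟨max T₀ 1000, fun T hT => ?_⟩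
    obtain ⟨h1, h2⟩ := h0 T ((le_max_left _ _).trans hT)
    have h3 : (A * S T) ^ 2 ≤ g (Real.log T) ^ 2 := by
      rw [mul_pow, S_sq ((le_max_right _ _).trans hT)]
      exact h1
    exact (le_abs_self _).trans (abs_le_of_sq_le_sq h3 h2)
  · intro ε hε
    obtain ⟨δ, hδ, h⟩ := hs ε hε
    obtain ⟨T₀, h0⟩ := eventually_atTop.1 (Real.tendsto_log_atTop.eventually h)
    obtain ⟨T₁, h1⟩ := eventually_atTop.1
      (Real.tendsto_log_atTop.eventually_ge_atTop (Real.log 2 / δ))
    refine ⟨max (max T₀ T₁) 1000, fun T hT => ?_⟩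
    have q0 : T₀ ≤ T := (le_max_left _ _).trans ((le_max_left _ _).trans hT)
    have q1 := h1 T ((le_max_right _ _).trans ((le_max_left _ _).trans hT))
    have q2 : 1000 ≤ T := (le_max_right _ _).trans hT
    refine h0 T q0 _ (Real.log_le_log (by linarith) (by linarith)) ?_
    have h3 : Real.log (T + 1) ≤ Real.log T + Real.log 2 := by
      rw [← Real.log_mul (by linarith) (by norm_num)]
      exact Real.log_le_log (by linarith) (by linarith)
    rw [div_le_iff₀ hδ] at q1
    linarith

lemma scale_log : Scale Real.log := by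
  refine scale_of (fun y => y) ⟨0, fun x y _ h => h⟩ (fun A => ?_) (eventually_ge_atTop 0)
    (fun ε hε => ⟨ε, hε, Eventually.of_forall fun y z _ h => h⟩)
  have h := Real.isLittleO_log_id_atTop.def (show (0:ℝ) < 1 / (|A| + 1) by positivity)
  filter_upwards [h, eventually_ge_atTop (1:ℝ)] with y h hy
  simp only [id_eq, Real.norm_eq_abs] at h
  have hl : 0 ≤ Real.log y := Real.log_nonneg hy
  rw [abs_of_nonneg hl, abs_of_nonneg (by linarith : (0:ℝ) ≤ y), div_mul_eq_mul_div, one_mul,
    le_div_iff₀ (by positivity)] at h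
  have h1 : A * (y * Real.log y) ≤ |A| * (y * Real.log y) :=
    mul_le_mul_of_nonneg_right (le_abs_self A) (by positivity)
  have h2 : |A| * (y * Real.log y) ≤ y * (Real.log y * (|A| + 1)) := by
    nlinarith [mul_nonneg (by linarith : (0:ℝ) ≤ y) hl]
  nlinarith

lemma scale_log_div : Scale (fun T => Real.log T / Real.log (Real.log T)) := by
  refine scale_of (fun y => y / Real.log y) ⟨Real.exp 1, fun x y hx h => ?_⟩ (fun A => ?_) ?_
    (fun ε hε => ⟨ε, hε, ?_⟩)
  · have hx0 : 0 < x := (Real.exp_pos 1).trans_le hx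
    have hy0 : 0 < y := hx0.trans_le h
    have hlx : 0 < Real.log x := by
      have : 1 ≤ Real.log x := (Real.le_log_iff_exp_le hx0).2 hx
      linarith
    have hly : 0 < Real.log y := by
      have : 1 ≤ Real.log y := (Real.le_log_iff_exp_le hy0).2 (hx.trans h)
      linarith
    have h1 := Real.log_div_self_antitoneOn (a := x) (b := y) hx (hx.trans h) h
    simp only at h1
    rw [div_le_div_iff₀ hy0 hx0] at h1
    show x / Real.log x ≤ y / Real.log y
    rw [div_le_div_iff₀ hlx hly]
    linarith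
  · have h := (Real.isLittleO_pow_log_id_atTop (n := 3)).def (show (0:ℝ) < 1 / (|A| + 1) by positivity)
    filter_upwards [h, eventually_ge_atTop (Real.exp 1)] with y h hy
    have hy0 : 0 < y := (Real.exp_pos 1).trans_le hy
    have hl : 0 < Real.log y := by
      have : 1 ≤ Real.log y := (Real.le_log_iff_exp_le hy0).2 hy
      linarith
    simp only [id_eq, Real.norm_eq_abs] at h
    rw [abs_of_nonneg (by positivity), abs_of_nonneg hy0.le, div_mul_eq_mul_div, one_mul,
      le_div_iff₀ (by positivity)] at h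
    rw [div_pow, le_div_iff₀ (by positivity)]
    have h1 : A * (y * Real.log y) * Real.log y ^ 2 ≤ |A| * (y * Real.log y) * Real.log y ^ 2 := by
      gcongr
      exact le_abs_self A
    have h3 : 0 ≤ y * Real.log y ^ 3 := by positivity
    have h4 : y * (Real.log y ^ 3 * (|A| + 1)) ≤ y * y := mul_le_mul_of_nonneg_left h hy0.le
    nlinarith
  · filter_upwards [eventually_ge_atTop (1:ℝ)] with y hy
    exact div_nonneg (by linarith) (Real.log_nonneg hy)
  · filter_upwards [eventually_ge_atTop (Real.exp 1)] with y hy z hyz hz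
    have hy0 : 0 < y := (Real.exp_pos 1).trans_le hy
    have hl : 0 < Real.log y := by
      have : 1 ≤ Real.log y := (Real.le_log_iff_exp_le hy0).2 hy
      linarith
    have h1 : Real.log y ≤ Real.log z := Real.log_le_log hy0 hyz
    calc z / Real.log z ≤ z / Real.log y := by
          apply div_le_div_of_nonneg_left (by linarith) hl h1
      _ ≤ (1 + ε) * y / Real.log y := by gcongr
      _ = _ := by ring

lemma scale_pow (α : ℝ) (hα : 1 / 2 < α) : Scale (fun T => Real.log T ^ α) := by
  refine scale_of (fun y => y ^ α) ⟨0, fun x y hx h => ?_⟩ (fun A => ?_) ?_ (fun ε hε => ?_)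
  · exact Real.rpow_le_rpow hx h (by linarith)
  · have h := (isLittleO_log_rpow_atTop (r := 2 * α - 1) (by linarith)).def
      (show (0:ℝ) < 1 / (|A| + 1) by positivity)
    filter_upwards [h, eventually_ge_atTop (1:ℝ)] with y h hy
    have hy0 : 0 < y := by linarith
    have hl : 0 ≤ Real.log y := Real.log_nonneg hy
    have hr : 0 ≤ y ^ (2 * α - 1) := Real.rpow_nonneg hy0.le _
    rw [Real.norm_of_nonneg hl, Real.norm_of_nonneg hr, div_mul_eq_mul_div, one_mul,
      le_div_iff₀ (by positivity)] at h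
    have e : (y ^ α) ^ 2 = y * y ^ (2 * α - 1) := by
      rw [← Real.rpow_natCast, ← Real.rpow_mul hy0.le]
      nth_rewrite 2 [← Real.rpow_one y]
      rw [← Real.rpow_add hy0]
      congr 1
      push_cast
      ring
    rw [e]
    have h1 : A * (y * Real.log y) ≤ |A| * (y * Real.log y) :=
      mul_le_mul_of_nonneg_right (le_abs_self A) (by positivity)
    have h4 : y * (Real.log y * (|A| + 1)) ≤ y * y ^ (2 * α - 1) :=
      mul_le_mul_of_nonneg_left h hy0.le
    nlinarith [mul_nonneg hy0.le hl]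
  · filter_upwards [eventually_ge_atTop (0:ℝ)] with y hy
    exact Real.rpow_nonneg hy _
  · have hα0 : 0 < α := by linarith
    refine ⟨(1 + ε) ^ (1 / α) - 1, ?_, ?_⟩
    · have : 1 < (1 + ε) ^ (1 / α) := Real.one_lt_rpow (by linarith) (by positivity)
      linarith
    · filter_upwards [eventually_ge_atTop (0:ℝ)] with y hy z hyz hz
      have e : 1 + ((1 + ε) ^ (1 / α) - 1) = (1 + ε) ^ (1 / α) := by ring
      rw [e] at hz
      calc z ^ α ≤ ((1 + ε) ^ (1 / α) * y) ^ α :=
            Real.rpow_le_rpow (by linarith) hz hα0.le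
        _ = (1 + ε) * y ^ α := by
          rw [Real.mul_rpow (by positivity) hy, ← Real.rpow_mul (by linarith),
            one_div_mul_cancel hα0.ne', Real.rpow_one]

end Pool.Agent.U99.ZD
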