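import Pool.Agent.U99.ZD.Dict
import Pool.Agent.H983R4.LH.P5

/-!
# The critical scale with the sharp local inequality
-/

set_option autoImplicit false

namespace Pool.Agent.U99.ZD

open Complex MeasureTheory Set Filter
open Pool.Agent.Results.MP_3d0d30_nt.ReductionsAndLargeValues
open Pool.Agent.H983R4.LH (C0 C1 MM Ex)

/-- a large set of large values bounds the moment from below -/
lemma window {p κ δ : ℝ} (hp : 0 < p) {v : ℝ} (hv : 100 ≤ v)
    (h : ENNReal.ofReal δ < volume (Ex κ v 1)) :
    δ * v ^ (κ * p) ≤ ∫ t in (v - 1)..(v + 1), Z t ^ p := by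
  have hv0 : 0 < v := by linarith
  have hle : v - 1 ≤ v + 1 := by linarith
  have hc : Continuous fun t => Z t ^ p := Z_cont.rpow_const fun _ => Or.inr hp.le
  rw [intervalIntegral.integral_of_le hle]
  have hint : Integrable (fun t => Z t ^ p) (volume.restrict (Ioc (v - 1) (v + 1))) :=
    (intervalIntegrable_iff_integrableOn_Ioc_of_le hle).1 (hc.intervalIntegrable _ _)
  have h1 := mul_meas_ge_le_integral_of_nonneg (μ := volume.restrict (Ioc (v - 1) (v + 1)))
    (f := fun t => Z t ^ p) (Eventually.of_forall fun t => Real.rpow_nonneg (Z_nonneg t) p)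
    hint (v ^ (κ * p))
  refine le_trans ?_ h1
  rw [mul_comm δ]
  apply mul_le_mul_of_nonneg_left _ (by positivity)
  have hmeas : MeasurableSet {x : ℝ | v ^ (κ * p) ≤ Z x ^ p} :=
    measurableSet_le measurable_const hc.measurable
  rw [measureReal_def, Measure.restrict_apply hmeas]
  have hfin : volume ({x : ℝ | v ^ (κ * p) ≤ Z x ^ p} ∩ Ioc (v - 1) (v + 1)) ≠ ⊤ := by
    refine ne_top_of_le_ne_top ?_ (measure_mono inter_subset_right)
    rw [Real.volume_Ioc]
    exact ENNReal.ofReal_ne_top
  have hsub : Ex κ v 1 ⊆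
      ({x : ℝ | v ^ (κ * p) ≤ Z x ^ p} ∩ Ioc (v - 1) (v + 1)) ∪ {v - 1} := by
    intro x hx
    obtain ⟨hx1, hx2⟩ := hx
    have hx3 := abs_le.1 hx1
    by_cases hx4 : x = v - 1
    · right; exact hx4
    · left
      refine ⟨?_, ⟨lt_of_le_of_ne (by linarith [hx3.1]) (Ne.symm hx4), by linarith [hx3.2]⟩⟩
      simp only [mem_ofPred_eq]
      rw [Real.rpow_mul hv0.le]
      exact Real.rpow_le_rpow (by positivity) hx2.le hp.le
  have h2 : volume (Ex κ v 1) ≤
      volume ({x : ℝ | v ^ (κ * p) ≤ Z x ^ p} ∩ Ioc (v - 1) (v + 1)) := by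
    refine (measure_mono hsub).trans ((measure_union_le _ _).trans ?_)
    rw [Real.volume_singleton, add_zero]
  exact (ENNReal.ofReal_le_iff_le_toReal hfin).1 (h.le.trans h2)

/-- large values persist, at the critical scale -/
lemma persist (η : ℝ) (hη : 0 < η) : ∃ B : ℝ, 0 < B ∧ ∃ T₀ : ℝ, 1000 ≤ T₀ ∧
    ∀ t : ℝ, T₀ ≤ t → ∀ κ : ℝ, 0 < κ → κ * Real.log t + η * S t < Real.log (Z t) →
    ENNReal.ofReal (Real.exp (-(2 * (B * (Real.log t / S t)))) / (2 * Real.log t ^ 2)) <
      volume (Ex κ t 1) := by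
  obtain ⟨K, hK, hloc⟩ := Pool.Agent.H983R4.LH.local_bound
  have hC0 := Pool.Agent.H983R4.LH.C0_nonneg
  have hC1 := Pool.Agent.H983R4.LH.C1_nonneg
  have hpi := Real.pi_pos
  have hpi3 := Real.pi_gt_three
  set B : ℝ := 2 * (C0 + C1 + 1) / η with hB
  have hB0 : 0 < B := by positivity
  have h3 := Real.tendsto_log_atTop.comp Real.tendsto_log_atTop
  obtain ⟨T₁, h1⟩ := eventually_atTop.1 (h3.eventually_ge_atTop (4 * (K + 2) / η))
  refine ⟨B, hB0, max T₁ 1000, le_max_right _ _, fun t ht κ hκ hz => ?_⟩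
  have q1 := h1 t ((le_max_left _ _).trans ht)
  have q2 : 1000 ≤ t := (le_max_right _ _).trans ht
  simp only [Function.comp] at q1
  have hl := log_ge q2
  have hl0 : 0 < Real.log t := by linarith
  have hS1 := S_ge1 q2
  have hSl := S_ge q2
  have hS0 : 0 < S t := by linarith
  set L : ℝ := Real.log t with hL
  set X : ℝ := B * (L / S t) with hX
  have hX0 : 0 < X := by positivity
  by_contra hcon
  push Not at hcon
  have hexpX : Real.exp (-X) < 1 := by
    rw [Real.exp_lt_one_iff]
    linarith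
  have hr : Real.exp (-X) / (2 * L) ≤ 1 / 2 := by
    rw [div_le_div_iff₀ (by positivity) (by norm_num)]
    nlinarith
  have hb := hloc κ t 1 (Real.exp (-X) / (2 * L)) (Real.exp (-(2 * X)) / (2 * L ^ 2))
    (Real.exp (-X)) hκ (by linarith) one_pos le_rfl (by positivity) hr (by positivity)
    (Real.exp_pos _) hexpX hcon
  have b4 : MM t ≤ 3 * L := Pool.Agent.H983R4.LH.num1 (by linarith)
  have hM := Pool.Agent.H983R4.LH.MM_nonneg (show 0 ≤ t by linarith)
  -- the term of the set
  have e1 : Real.exp (-(2 * X)) / (2 * L ^ 2) / (Real.pi * (Real.exp (-X) / (2 * L) * Real.exp (-X)))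
      = 1 / (Real.pi * L) := by
    have : Real.exp (-(2 * X)) = Real.exp (-X) * Real.exp (-X) := by
      rw [← Real.exp_add]
      congr 1
      ring
    rw [this]
    field_simp
  have b1 : 1 / (Real.pi * L) ≤ 1 / (3 * L) := by gcongr
  -- the two integral terms
  have hlog1 : X ≤ Real.log (1 + 1 / (2 * (Real.exp (-X) / (2 * L)))) := by
    rw [Real.le_log_iff_exp_le (by positivity)]
    have h5 : 1 / (2 * (Real.exp (-X) / (2 * L))) = L * Real.exp X := by
      rw [Real.exp_neg]
      field_simp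
    rw [h5]
    have := Real.exp_pos X
    nlinarith
  have hlog2 : Real.log (1 / Real.exp (-X)) = X := by
    rw [one_div, Real.log_inv, Real.log_exp]
    ring
  have b2 : C0 / (2 * Real.pi * Real.log (1 + 1 / (2 * (Real.exp (-X) / (2 * L))))) ≤
      C0 / (6 * X) := by
    have h6 : 6 * X ≤ 2 * Real.pi * Real.log (1 + 1 / (2 * (Real.exp (-X) / (2 * L)))) := by
      nlinarith
    exact div_le_div_of_nonneg_left hC0 (by positivity) h6
  have b3 : C1 / (2 * Real.pi * Real.log (1 / Real.exp (-X))) ≤ C1 / (6 * X) := by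
    rw [hlog2]
    exact div_le_div_of_nonneg_left hC1 (by positivity) (by nlinarith)
  rw [e1] at hb
  have c1 : MM t * (1 / (Real.pi * L) + C0 / (2 * Real.pi *
      Real.log (1 + 1 / (2 * (Real.exp (-X) / (2 * L))))) +
      C1 / (2 * Real.pi * Real.log (1 / Real.exp (-X)))) ≤
      3 * L * (1 / (3 * L) + C0 / (6 * X) + C1 / (6 * X)) := by
    apply mul_le_mul b4 (by linarith) _ (by positivity)
    rw [hlog2]
    have : 0 < Real.log (1 + 1 / (2 * (Real.exp (-X) / (2 * L)))) := by linarith
    positivity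
  have c2 : 3 * L * (1 / (3 * L) + C0 / (6 * X) + C1 / (6 * X)) ≤ 1 + η / 4 * S t := by
    have e2 : 3 * L * (1 / (3 * L) + C0 / (6 * X) + C1 / (6 * X)) =
        1 + (C0 + C1) * L / (2 * X) := by
      field_simp
      ring
    have e3 : (C0 + C1) * L / (2 * X) = (C0 + C1) / (C0 + C1 + 1) * (η / 4 * S t) := by
      rw [hX, hB]
      field_simp
      ring
    have e4 : (C0 + C1) / (C0 + C1 + 1) ≤ 1 := by
      rw [div_le_one (by positivity)]
      linarith
    have e5 : 0 ≤ η / 4 * S t := by positivity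
    rw [e2, e3]
    nlinarith
  -- the shift of the centre
  have c3 : Real.exp (-X) / (2 * L) * Real.log (t + 1) ≤ 1 := by
    have h7 := Pool.Agent.H983R4.LH.num2 (show 8 ≤ t by linarith)
    calc Real.exp (-X) / (2 * L) * Real.log (t + 1) ≤ Real.exp (-X) / (2 * L) * (2 * L) :=
          mul_le_mul_of_nonneg_left h7 (by positivity)
      _ = Real.exp (-X) := by field_simp
      _ ≤ 1 := hexpX.le
  have c4 : Real.log (Z t) ≤ Real.posLog (Z t) := le_max_right _ _
  have c5 : K + 2 ≤ η / 4 * S t := by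
    rw [div_le_iff₀ hη] at q1
    nlinarith
  have c6 : 0 < η * S t := by positivity
  have c7 : Real.posLog (Z t) ≤ K + Real.exp (-X) / (2 * L) * Real.log (t + 1) + κ * L +
      MM t * (1 / (Real.pi * L) + C0 / (2 * Real.pi *
      Real.log (1 + 1 / (2 * (Real.exp (-X) / (2 * L))))) +
      C1 / (2 * Real.pi * Real.log (1 / Real.exp (-X)))) := hb
  linarith

/-- **the critical scale, with the sharp local inequality** -/
lemma critical_sharp {a : ℝ} (ha : 0 < a) (h : ∃ T₀ : ℝ, ∀ T : ℝ, T₀ ≤ T →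
    Good (a * S T / Real.log (Real.log T)) T) : Growth S (1 / (2 * a) + a / 2) := by
  intro ε hε
  obtain ⟨T₂, h2⟩ := h
  set b : ℝ := 1 / (2 * a) + a / 2 with hb
  have hb0 : 0 < b := by positivity
  have hab : 2 * a * b = 1 + a ^ 2 := by
    rw [hb]
    field_simp
  obtain ⟨B, hB0, T₁, hT₁, h1⟩ := persist (ε / 4) (by positivity)
  set δ : ℝ := min 1 (ε / (4 * b)) with hδ
  have hδ0 : 0 < δ := lt_min one_pos (by positivity)
  have hδ1 : δ ≤ 1 := min_le_left _ _
  have hδ2 : b * δ ≤ ε / 4 := by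
    have h5 : δ ≤ ε / (4 * b) := min_le_right _ _
    rw [le_div_iff₀ (by positivity)] at h5
    linarith
  obtain ⟨T₃, h3⟩ := S_shift δ hδ0
  have hll := Real.tendsto_log_atTop.comp Real.tendsto_log_atTop
  obtain ⟨T₄, h4⟩ := eventually_atTop.1 (hll.eventually_ge_atTop (16 * B / (a * ε)))
  have hlo : ∀ᶠ y : ℝ in atTop, 1 + 2 * Real.log y ≤ a * ε / 16 * y := by
    have h5 := Real.isLittleO_log_id_atTop.def (show (0:ℝ) < a * ε / 64 by positivity)
    filter_upwards [h5, eventually_ge_atTop (1:ℝ), eventually_ge_atTop (32 / (a * ε))] with y h5 hy hy2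
    simp only [id_eq, Real.norm_eq_abs] at h5
    rw [abs_of_nonneg (Real.log_nonneg hy), abs_of_nonneg (by linarith : (0:ℝ) ≤ y)] at h5
    rw [div_le_iff₀ (by positivity)] at hy2
    linarith
  obtain ⟨T₅, h5⟩ := eventually_atTop.1 (Real.tendsto_log_atTop.eventually hlo)
  refine ⟨max (max (max T₁ T₂) (max T₃ T₄)) T₅, fun t ht => ?_⟩
  have p1 : T₁ ≤ t := (le_max_left _ _).trans ((le_max_left _ _).trans ((le_max_left _ _).trans ht))
  have p2 : T₂ ≤ t := (le_max_right _ _).trans ((le_max_left _ _).trans ((le_max_left _ _).trans ht))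
  have p3 : T₃ ≤ t := (le_max_left _ _).trans ((le_max_right _ _).trans ((le_max_left _ _).trans ht))
  have p4 : T₄ ≤ t := (le_max_right _ _).trans ((le_max_right _ _).trans ((le_max_left _ _).trans ht))
  have p5 : T₅ ≤ t := (le_max_right _ _).trans ht
  have p6 : 1000 ≤ t := hT₁.trans p1
  by_contra hcon
  push Not at hcon
  have hZ0 : 0 < Z t := (Real.exp_pos _).trans hcon
  have hlogz : (b + ε) * S t < Real.log (Z t) := (Real.lt_log_iff_exp_lt hZ0).2 hcon
  have p7 : 1000 ≤ t + 1 := by linarith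
  have hl := log_ge p6
  have hl0 : 0 < Real.log t := by linarith
  have hS1 := S_ge1 p6
  have hSl := S_ge p6
  have hS0 : 0 < S t := by linarith
  have hl' := log_ge p7
  have hl0' : 0 < Real.log (t + 1) := by linarith
  have hll' := loglog_ge p7
  have hll0' : 0 < Real.log (Real.log (t + 1)) := by linarith
  have hS1' := S_ge1 p7
  have hS0' : 0 < S (t + 1) := by linarith
  have hSsq := S_sq p7
  have hLL : Real.log t ≤ Real.log (t + 1) := Real.log_le_log (by linarith) (by linarith)
  have hShift := h3 t p3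
  -- the order
  set k : ℝ := a * S (t + 1) / Real.log (Real.log (t + 1)) with hk
  have hk0 : 0 < k := by positivity
  have hkl : k * Real.log (Real.log (t + 1)) = a * S (t + 1) := by
    rw [hk]
    field_simp
  have hgood : Good k (t + 1) := h2 (t + 1) (by linarith)
  -- the set of large values
  set κ : ℝ := (b + ε / 2) * S t / Real.log t with hκ
  have hκ0 : 0 < κ := by positivity
  have hκl : κ * Real.log t = (b + ε / 2) * S t := by
    rw [hκ]
    field_simp
  have hE := h1 t p1 κ hκ0 (by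
    rw [hκl]
    nlinarith)
  set X : ℝ := B * (Real.log t / S t) with hX
  have hm0 : 0 < Real.exp (-(2 * X)) / (2 * Real.log t ^ 2) := by positivity
  have hW := window (p := 2 * k) (by positivity) (by linarith) hE
  have hW2 : ∫ u in (t - 1)..(t + 1), Z u ^ (2 * k) ≤ M k (t + 1) := by
    unfold M
    refine intervalIntegral.integral_mono_interval (by linarith) (by linarith) le_rfl ?_ ?_
    · exact Eventually.of_forall fun u => Real.rpow_nonneg (Z_nonneg u) _
    · exact (Z_cont.rpow_const fun u => Or.inr (by positivity)).intervalIntegrable _ _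
  have hW3 := (hW.trans hW2).trans hgood
  have ht0 : 0 < t := by linarith
  have hT0 : 0 < t + 1 := by linarith
  have hlogs := Real.log_le_log (by positivity) hW3
  rw [Real.log_mul hm0.ne' (Real.rpow_pos_of_pos ht0 _).ne',
    Real.log_div (Real.exp_pos _).ne' (by positivity), Real.log_exp, Real.log_rpow ht0,
    Real.log_mul (by norm_num) (by positivity), Real.log_pow,
    Real.log_mul hT0.ne' (Real.rpow_pos_of_pos hl0' _).ne', Real.log_rpow hl0'] at hlogs
  push_cast at hlogs
  have hl2 : Real.log 2 ≤ 1 := by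
    have := Real.log_two_lt_d9
    linarith
  have hlog1 : Real.log (Real.log t) ≤ Real.log (Real.log (t + 1)) := Real.log_le_log hl0 hLL
  have h6 := h5 (t + 1) (by linarith)
  have hκk : κ * (2 * k) * Real.log t = 2 * k * ((b + ε / 2) * S t) := by
    rw [← hκl]
    ring
  rw [hκk] at hlogs
  -- the inequality times `log log T`
  have i1 : 2 * k * ((b + ε / 2) * S t) ≤ Real.log (t + 1) + k ^ 2 * Real.log (Real.log (t + 1)) +
      2 * X + a * ε / 16 * Real.log (t + 1) := by linarith
  have i2 : 2 * (a * S (t + 1)) * ((b + ε / 2) * S t) ≤ S (t + 1) ^ 2 + a ^ 2 * S (t + 1) ^ 2 +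
      (2 * X + a * ε / 16 * Real.log (t + 1)) * Real.log (Real.log (t + 1)) := by
    have := mul_le_mul_of_nonneg_right i1 hll0'.le
    calc 2 * (a * S (t + 1)) * ((b + ε / 2) * S t)
        = 2 * k * ((b + ε / 2) * S t) * Real.log (Real.log (t + 1)) := by
          rw [← hkl]
          ring
      _ ≤ _ := this
      _ = Real.log (t + 1) * Real.log (Real.log (t + 1)) +
          (k * Real.log (Real.log (t + 1))) ^ 2 +
          (2 * X + a * ε / 16 * Real.log (t + 1)) * Real.log (Real.log (t + 1)) := by ring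
      _ = _ := by
          rw [hkl, mul_pow, hSsq]
  have i3 : S (t + 1) ^ 2 + a ^ 2 * S (t + 1) ^ 2 = 2 * a * b * S (t + 1) ^ 2 := by
    rw [hab]
    ring
  have i4 : 2 * a * S (t + 1) * ((b + ε / 2) * S t - b * S (t + 1)) ≤
      (2 * X + a * ε / 16 * Real.log (t + 1)) * Real.log (Real.log (t + 1)) := by
    rw [i3] at i2
    linarith [i2, show 2 * a * S (t + 1) * ((b + ε / 2) * S t - b * S (t + 1)) =
      2 * (a * S (t + 1)) * ((b + ε / 2) * S t) - 2 * a * b * S (t + 1) ^ 2 by ring]
  have i5 : ε / 4 * S t ≤ (b + ε / 2) * S t - b * S (t + 1) := by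
    have j1 : b * S (t + 1) ≤ b * ((1 + δ) * S t) := mul_le_mul_of_nonneg_left hShift hb0.le
    have j2 : b * δ * S t ≤ ε / 4 * S t := mul_le_mul_of_nonneg_right hδ2 hS0.le
    linarith [show b * ((1 + δ) * S t) = b * S t + b * δ * S t by ring]
  have i6 : S (t + 1) ≤ 2 * S t := by
    refine hShift.trans ?_
    apply mul_le_mul_of_nonneg_right _ hS0.le
    linarith
  have i7 : a * ε / 4 * S (t + 1) ^ 2 ≤
      2 * a * S (t + 1) * ((b + ε / 2) * S t - b * S (t + 1)) := by
    calc a * ε / 4 * S (t + 1) ^ 2 = 2 * a * S (t + 1) * (ε / 8 * S (t + 1)) := by ring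
      _ ≤ 2 * a * S (t + 1) * (ε / 4 * S t) := by
          apply mul_le_mul_of_nonneg_left _ (by positivity)
          nlinarith
      _ ≤ _ := mul_le_mul_of_nonneg_left i5 (by positivity)
  have i8 : a * ε / 4 * Real.log (t + 1) ≤ 2 * X + a * ε / 16 * Real.log (t + 1) := by
    have j := i7.trans i4
    rw [hSsq, ← mul_assoc] at j
    exact le_of_mul_le_mul_right j hll0'
  have i9 : 2 * X ≤ a * ε / 8 * Real.log (t + 1) := by
    have j := h4 t p4
    simp only [Function.comp] at j
    have j1 : 16 * B / (a * ε) ≤ S t := j.trans hSl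
    rw [div_le_iff₀ (by positivity)] at j1
    have j2 : X * S t = B * Real.log t := by
      rw [hX]
      field_simp
    have j3 : 2 * X * S t ≤ a * ε / 8 * Real.log (t + 1) * S t := by
      calc 2 * X * S t = 2 * (B * Real.log t) := by rw [← j2]; ring
        _ = 1 / 8 * (16 * B) * Real.log t := by ring
        _ ≤ 1 / 8 * (S t * (a * ε)) * Real.log t := by gcongr
        _ ≤ 1 / 8 * (S t * (a * ε)) * Real.log (t + 1) := by gcongr
        _ = _ := by ring
    exact le_of_mul_le_mul_right j3 hS0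
  have i10 : 0 < a * ε / 16 * Real.log (t + 1) := by positivity
  linarith

end Pool.Agent.U99.ZD
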